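import Mathlib
import Pool.Agent.H26R2.IdemLI.Defs

set_option autoImplicit false

/-!
Definitions for perfect projective modules over integral group rings.
-/

namespace Pool.Agent.H26R2.Perf

open Pool.Agent.H26R2.IdemLI (LocInd)

universe v

/-- `M` is spanned by the elements `r • m` with `r` in the augmentation ideal. -/
def Perfect (G : Type v) [Group G] (M : Type v) [AddCommGroup M] [Module (MonoidAlgebra ℤ G) M] :
    Prop :=
  Submodule.span (MonoidAlgebra ℤ G)
    {x : M | ∃ r : MonoidAlgebra ℤ G,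
      r ∈ (Ideal.span (Set.range (fun g : G =>
        (MonoidAlgebra.single g (1 : ℤ) - 1 : MonoidAlgebra ℤ G))) :
          Ideal (MonoidAlgebra ℤ G)) ∧ ∃ m : M, x = r • m} = ⊤

/-- All finitely generated perfect projective `ℤ[G]`-modules are zero. -/
def NoPerfect (G : Type v) [Group G] : Prop :=
  ∀ (M : Type v) [AddCommGroup M] [Module (MonoidAlgebra ℤ G) M],
    Module.Finite (MonoidAlgebra ℤ G) M → Module.Projective (MonoidAlgebra ℤ G) M →
      Perfect G M → Subsingleton M

/-- All idempotent square matrices over `ℤ[G]` that vanish over `ℤ[G/N]` vanish. -/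
def DetZ {G : Type v} [Group G] (N : Subgroup G) [N.Normal] : Prop :=
  ∀ (n : ℕ) (E : Matrix (Fin n) (Fin n) (MonoidAlgebra ℤ G)), E * E = E →
    E.map (MonoidAlgebra.mapDomainRingHom ℤ (QuotientGroup.mk' N)) = 0 → E = 0

/-- For every sequence `b 0, b 1, …` with `b (i + 1) ^ (i + 1) = b i` the element `b 0` has finite
order. -/
def NoQ (A : Type v) [Group A] : Prop :=
  ∀ b : ℕ → A, (∀ i, b (i + 1) ^ (i + 1) = b i) → ∃ n : ℕ, 0 < n ∧ b 0 ^ n = 1

/-- `A` is residually finite. -/
def ResFinite (A : Type v) [Group A] : Prop :=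
  ∀ x : A, x ≠ 1 → ∃ (Q : Type) (_ : Group Q) (_ : Finite Q) (f : A →* Q), f x ≠ 1

/-- `N` has a finite series `1 = S_0 ≤ S_1 ≤ … ≤ S_k = N` of normal subgroups of `G` whose factors
satisfy `NoQ` or are locally `ℚ`-indicable. -/
def ZSeries {G : Type v} [Group G] (N : Subgroup G) : Prop :=
  ∃ (k : ℕ) (S : ℕ → Subgroup G) (_ : ∀ i, (S i).Normal), S 0 = ⊥ ∧ S k = N ∧
    ∀ i < k, S i ≤ S (i + 1) ∧ (NoQ ((S (i + 1)).map (QuotientGroup.mk' (S i))) ∨
      LocInd ℚ ((S (i + 1)).map (QuotientGroup.mk' (S i))))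

end Pool.Agent.H26R2.Perf
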