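import Mathlib
import Pool.Agent.H26R2.Perf.Defs

set_option autoImplicit false

/-!
Perfect projective modules and idempotent matrices.
-/

namespace Pool.Agent.H26R2.Perf

open MonoidAlgebra

universe v

section

variable {G : Type v} [Group G] {n : ℕ}

/-- the augmentation -/
noncomputable def aug (G : Type v) [Group G] : MonoidAlgebra ℤ G →+* ℤ :=
  (MonoidAlgebra.lift ℤ ℤ G (1 : G →* ℤ)).toRingHom

lemma aug_single (g : G) (r : ℤ) : aug G (single g r) = r := by
  show MonoidAlgebra.lift ℤ ℤ G (1 : G →* ℤ) (single g r) = r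
  rw [MonoidAlgebra.lift_single]
  simp

/-- the augmentation ideal -/
noncomputable def AI (G : Type v) [Group G] : Ideal (MonoidAlgebra ℤ G) :=
  Ideal.span (Set.range (fun g : G => (single g (1 : ℤ) - 1 : MonoidAlgebra ℤ G)))

lemma aug_of_mem (r : MonoidAlgebra ℤ G) (hr : r ∈ AI G) : aug G r = 0 := by
  unfold AI at hr
  induction hr using Submodule.span_induction with
  | mem x hx =>
    obtain ⟨g, rfl⟩ := hx
    show aug G (single g 1 - 1) = 0
    rw [map_sub, aug_single, map_one, sub_self]
  | zero => exact map_zero _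
  | add x y _ _ hx hy => rw [map_add, hx, hy, add_zero]
  | smul a x _ hx => rw [smul_eq_mul, map_mul, hx, mul_zero]

lemma mem_of_aug (r : MonoidAlgebra ℤ G) (hr : aug G r = 0) : r ∈ AI G := by
  have h1 : ∀ x : MonoidAlgebra ℤ G, x - single 1 (aug G x) ∈ AI G := by
    intro x
    induction x using MonoidAlgebra.induction_linear with
    | zero => simp
    | add a b ha hb =>
      rw [map_add, single_add, add_sub_add_comm]
      exact (AI G).add_mem ha hb
    | single g c =>
      rw [aug_single]
      have h2 : single g c - single 1 c = single 1 c * (single g (1 : ℤ) - 1) := by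
        rw [mul_sub, single_mul_single, one_mul, mul_one, mul_one]
      rw [h2]
      exact (AI G).mul_mem_left _ (Ideal.subset_span ⟨g, rfl⟩)
  have h2 := h1 r
  rwa [hr, single_zero, sub_zero] at h2

/-- the matrix form of `NoPerfect` -/
def NoPerfM (G : Type v) [Group G] : Prop :=
  ∀ (n : ℕ) (E : Matrix (Fin n) (Fin n) (MonoidAlgebra ℤ G)), E * E = E →
    (∀ i j, aug G (E i j) = 0) → E = 0

theorem noPerfM_of (h : NoPerfect G) : NoPerfM G := by
  classical
  intro n E hE haug
  let R := MonoidAlgebra ℤ G
  let φ : (Fin n → R) →ₗ[R] (Fin n → R) := E.vecMulLinear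
  have hφ : ∀ x, φ x = Matrix.vecMul x E := fun x => rfl
  have hφφ : ∀ x, φ (φ x) = φ x := by
    intro x
    rw [hφ, hφ, Matrix.vecMul_vecMul, hE]
  let M : Submodule R (Fin n → R) := LinearMap.range φ
  have hfin : Module.Finite R M := Module.Finite.range φ
  have hproj : Module.Projective R M := by
    refine Module.Projective.of_split M.subtype φ.rangeRestrict ?_
    ext1 x
    obtain ⟨y, hy⟩ := x.2
    apply Subtype.ext
    show φ (x : Fin n → R) = x
    rw [← hy, hφφ]
  let e : Fin n → M := fun i => ⟨φ (Pi.single i 1), ⟨_, rfl⟩⟩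
  have hsum : ∀ x : Fin n → R, φ x = ∑ i, x i • φ (Pi.single i 1) := by
    intro x
    conv_lhs => rw [pi_eq_sum_univ' x]
    rw [map_sum]
    apply Finset.sum_congr rfl
    intro i _
    rw [map_smul]
  have hrow : ∀ i j, φ (Pi.single i 1) j = E i j := by
    intro i j
    rw [hφ]
    simp [Matrix.vecMul, dotProduct, Pi.single_apply]
  have hperf : Perfect G M := by
    unfold Perfect
    rw [eq_top_iff]
    rintro x -
    obtain ⟨y, hy⟩ := x.2
    have h1 : x = ∑ i, y i • ∑ k, E i k • e k := by
      apply Subtype.ext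
      rw [Submodule.coe_sum]
      have h2 : ∀ i, ((y i • ∑ k, E i k • e k : M) : Fin n → R) = y i • φ (Pi.single i 1) := by
        intro i
        rw [Submodule.coe_smul, Submodule.coe_sum]
        congr 1
        rw [← hφφ (Pi.single i 1), hsum (φ (Pi.single i 1))]
        apply Finset.sum_congr rfl
        intro k _
        rw [hrow]
        rfl
      rw [Finset.sum_congr rfl (fun i _ => h2 i), ← hsum, hy]
    rw [h1]
    apply Submodule.sum_mem
    intro i _
    apply Submodule.smul_mem
    apply Submodule.sum_mem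
    intro k _
    apply Submodule.subset_span
    exact ⟨E i k, mem_of_aug _ (haug i k), e k, rfl⟩
  have hsub := h M hfin hproj hperf
  ext1 i j
  rw [← hrow i j]
  have h3 : e i = 0 := Subsingleton.elim _ _
  have h4 : φ (Pi.single i 1) = 0 := congrArg Subtype.val h3
  rw [h4]
  rfl

theorem noPerfect_of (h : NoPerfM G) : NoPerfect G := by
  classical
  intro M _ _ hfin hproj hperf
  let R := MonoidAlgebra ℤ G
  obtain ⟨n, f, hf⟩ := Module.Finite.exists_fin' R M
  obtain ⟨s, hs⟩ := Module.projective_lifting_property f (LinearMap.id : M →ₗ[R] M) hf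
  have hs' : ∀ m, f (s m) = m := fun m => congrArg (fun g : M →ₗ[R] M => g m) hs
  have haug : ∀ (m : M) (j : Fin n), aug G (s m j) = 0 := by
    intro m j
    have hm : m ∈ (⊤ : Submodule R M) := trivial
    unfold Perfect at hperf
    rw [← hperf] at hm
    induction hm using Submodule.span_induction with
    | mem x hx =>
      obtain ⟨r, hr, m', rfl⟩ := hx
      rw [map_smul, Pi.smul_apply, smul_eq_mul, map_mul, aug_of_mem r hr, zero_mul]
    | zero => rw [map_zero, Pi.zero_apply, map_zero]
    | add x y _ _ hx hy => rw [map_add, Pi.add_apply, map_add, hx, hy, add_zero]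
    | smul a x _ hx => rw [map_smul, Pi.smul_apply, smul_eq_mul, map_mul, hx, mul_zero]
  let E : Matrix (Fin n) (Fin n) R := fun i j => s (f (Pi.single i 1)) j
  have hsum : ∀ x : Fin n → R, s (f x) = ∑ i, x i • s (f (Pi.single i 1)) := by
    intro x
    conv_lhs => rw [pi_eq_sum_univ' x]
    rw [map_sum, map_sum]
    apply Finset.sum_congr rfl
    intro i _
    rw [map_smul, map_smul]
  have hE : E * E = E := by
    ext1 i j
    rw [Matrix.mul_apply]
    have h1 := congrFun (hsum (s (f (Pi.single i 1)))) j
    rw [hs', Finset.sum_apply] at h1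
    exact h1.symm
  have hE0 := h n E hE (fun i j => haug _ j)
  have h0 : ∀ m : M, m = 0 := by
    intro m
    rw [← hs' m, ← hs' m, hs', ← hs' (f (s m)), hsum]
    have h2 : ∀ i, s (f (Pi.single i 1)) = 0 := by
      intro i
      funext j
      exact congrFun (congrFun hE0 i) j
    simp only [h2, smul_zero, Finset.sum_const_zero, map_zero]
  exact ⟨fun a b => by rw [h0 a, h0 b]⟩

theorem noPerfect_iff : NoPerfect G ↔ NoPerfM G := ⟨noPerfM_of, noPerfect_of⟩

end

end Pool.Agent.H26R2.Perf
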