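import Mathlib
import Pool.Agent.H26R2.Perf.Mod
import Pool.Agent.H26R2.Kap2.Main
import Pool.Agent.H26R2.Bass.Ext

set_option autoImplicit false

/-!
Normal subgroups that detect idempotent matrices over integral group rings.
-/

namespace Pool.Agent.H26R2.Perf

open MonoidAlgebra
open Pool.Agent.H40R2.Zd (fs fs_single fs_coeff fs_supp fs_ne exists_restrict)
open Pool.Agent.H23R2.Cyc (tf tf_apply)
open Pool.Agent.H26R2.IdemLI (Det LocInd ch ch_coeff ch_injective det_of_locInd det_bot FinOrd U cind)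
open Pool.Agent.H26R2.Bass (FullyAD FullyAD.pow FullyAD.eq_one_of_finOrd fullyAD_of_tf ind tf_ch
  NoUnitPrimes U_eq_ell exists_local)
open Pool.Agent.H26R2.Kap2 (zero_of_vanish)

universe v

section

variable {G : Type v} [Group G] {n : ℕ}

lemma noUnitPrimes_int : NoUnitPrimes ℤ := by
  intro p hp h
  rcases Int.isUnit_iff.1 h with h | h
  · exact hp.one_lt.ne' (by exact_mod_cast h)
  · have := hp.pos
    omega

lemma fullyAD_conj {s : G} (h : FullyAD s) (c : G) : FullyAD (c⁻¹ * s * c) := by
  intro k hk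
  obtain ⟨J, hJ, h1⟩ := h k hk
  refine ⟨J, hJ, ?_⟩
  have h2 : ∀ m : ℕ, (c⁻¹ * s * c) ^ m = c⁻¹ * s ^ m * c := by
    intro m
    have := conj_pow (i := m) (a := c⁻¹) (b := s)
    rwa [inv_inv] at this
  have h3 : ∀ t : G, IsConj t (c⁻¹ * t * c) := fun t => isConj_iff.2 ⟨c⁻¹, by rw [inv_inv]⟩
  rw [h2]
  exact ((h3 s).symm.trans h1).trans (h3 _)

/-- fully divisible elements of a normal subgroup without chains of roots are trivial -/
theorem eq_one_of_noQ (N : Subgroup G) [N.Normal] (hN : NoQ N) (g : G) (hg : g ∈ N)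
    (h : FullyAD g) : g = 1 := by
  classical
  let X := {b : N // FullyAD (b : G)}
  have step : ∀ (x : X) (k : ℕ), 1 ≤ k → ∃ y : X, (y.1 : N) ^ k = x.1 := by
    rintro ⟨x, hx⟩ k hk
    obtain ⟨J, hJ, hc⟩ := hx k hk
    obtain ⟨c, hc⟩ := isConj_iff.1 hc
    have hmem : c⁻¹ * (x : G) * c ∈ N := by
      have := ‹N.Normal›.conj_mem _ x.2 c⁻¹
      rwa [inv_inv] at this
    have h2 : ∀ m : ℕ, (c⁻¹ * (x : G) * c) ^ m = c⁻¹ * (x : G) ^ m * c := by
      intro m
      have := conj_pow (i := m) (a := c⁻¹) (b := (x : G))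
      rwa [inv_inv] at this
    refine ⟨⟨(⟨_, hmem⟩ : N) ^ k ^ (J - 1), ?_⟩, ?_⟩
    · show FullyAD ((c⁻¹ * (x : G) * c) ^ k ^ (J - 1))
      exact (fullyAD_conj hx c).pow _
    · apply Subtype.ext
      show ((c⁻¹ * (x : G) * c) ^ k ^ (J - 1)) ^ k = x
      rw [← pow_mul, ← pow_succ, show J - 1 + 1 = J by omega, h2, ← hc]
      group
  choose! r hr using step
  let b : ℕ → X := fun i => Nat.rec ⟨⟨g, hg⟩, h⟩ (fun i x => r x (i + 1)) i
  have hb : ∀ i, ((b (i + 1)).1 : N) ^ (i + 1) = (b i).1 := fun i => hr (b i) (i + 1) (by omega)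
  obtain ⟨m, hm, h1⟩ := hN (fun i => (b i).1) hb
  have h2 : g ^ m = 1 := congrArg Subtype.val h1
  exact h.eq_one_of_finOrd ⟨m, hm, h2⟩

lemma ch_fs {Q : Type v} [Group Q] (f : G →* Q) (x : MonoidAlgebra ℤ G) :
    fs ℚ f (ch (algebraMap ℤ ℚ) G x) = ch (algebraMap ℤ ℚ) Q (fs ℤ f x) := by
  classical
  induction x using MonoidAlgebra.induction_linear with
  | zero => simp
  | add a b ha hb => rw [map_add, map_add, map_add, map_add, ha, hb]
  | single g r =>
    have h1 : ∀ {Δ : Type v} [Group Δ] (d : Δ) (z : ℤ),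
        ch (algebraMap ℤ ℚ) Δ (single d z) = single d (algebraMap ℤ ℚ z) := by
      intro Δ _ d z
      ext y
      rw [ch_coeff, coeff_single, coeff_single, Finsupp.single_apply, Finsupp.single_apply]
      split_ifs
      · rfl
      · exact map_zero _
    rw [h1, fs_single, fs_single, h1]

lemma zero_of_ch (E : Matrix (Fin n) (Fin n) (MonoidAlgebra ℤ G))
    (h : E.map (ch (algebraMap ℤ ℚ) G) = 0) : E = 0 := by
  ext1 i j
  apply ch_injective (algebraMap ℤ ℚ) (algebraMap ℤ ℚ).injective_int
  rw [Matrix.zero_apply, map_zero]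
  exact congrFun (congrFun h i) j

/-- rational detection implies integral detection -/
theorem detZ_of_det (N : Subgroup G) [N.Normal] (hN : Det ℚ N) : DetZ N := by
  intro n E hE h0
  apply zero_of_ch
  apply hN n
  · rw [← Matrix.map_mul, hE]
  · ext1 i j
    show fs ℚ (QuotientGroup.mk' N) (ch (algebraMap ℤ ℚ) G (E i j)) = 0
    rw [ch_fs]
    have h1 : fs ℤ (QuotientGroup.mk' N) (E i j) = 0 := congrFun (congrFun h0 i) j
    rw [h1, map_zero]

/-- normal subgroups without chains of roots -/
theorem detZ_of_noQ (N : Subgroup G) [N.Normal] (hN : NoQ N) : DetZ N := by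
  intro n E hE h0
  apply zero_of_ch
  have hE' : E.map (ch (algebraMap ℤ ℚ) G) * E.map (ch (algebraMap ℤ ℚ) G) =
      E.map (ch (algebraMap ℤ ℚ) G) := by rw [← Matrix.map_mul, hE]
  refine det_bot n _ hE' ?_
  refine zero_of_vanish _ hE' ⊥ N bot_le ?_ ?_
  · intro g hg hg1
    rw [U_eq_ell, map_sum, ← tf_apply, tf_ch]
    by_contra hne
    apply hg1
    rw [Subgroup.mem_bot]
    apply eq_one_of_noQ N hN g hg
    apply fullyAD_of_tf noUnitPrimes_int E hE g
    intro h1
    exact hne (by rw [h1, map_zero])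
  · ext1 i j
    show fs ℚ (QuotientGroup.mk' N) (ch (algebraMap ℤ ℚ) G (E i j)) = 0
    rw [ch_fs]
    have h1 : fs ℤ (QuotientGroup.mk' N) (E i j) = 0 := congrFun (congrFun h0 i) j
    rw [h1, map_zero]

/-- extensions -/
theorem detZ_ext (M N : Subgroup G) [M.Normal] [N.Normal] (hMN : M ≤ N) (hM : DetZ M)
    (hN : DetZ (N.map (QuotientGroup.mk' M))) : DetZ N := by
  intro n E hE h0
  apply hM n E hE
  apply hN n
  · rw [← Matrix.map_mul, hE]
  · ext1 i j
    let e := (QuotientGroup.quotientQuotientEquivQuotient M N hMN).symm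
    have h1 : ∀ a : MonoidAlgebra ℤ G, fs ℤ (QuotientGroup.mk' (N.map (QuotientGroup.mk' M)))
        (fs ℤ (QuotientGroup.mk' M) a) = fs ℤ e.toMonoidHom (fs ℤ (QuotientGroup.mk' N) a) := by
      intro a
      induction a using MonoidAlgebra.induction_linear with
      | zero => simp
      | add a b ha hb => rw [map_add, map_add, map_add, map_add, ha, hb]
      | single g r =>
        rw [fs_single, fs_single, fs_single, fs_single]
        rfl
    show fs ℤ (QuotientGroup.mk' (N.map (QuotientGroup.mk' M)))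
        (fs ℤ (QuotientGroup.mk' M) (E i j)) = 0
    have h2 : fs ℤ (QuotientGroup.mk' N) (E i j) = 0 := congrFun (congrFun h0 i) j
    rw [h1, h2, map_zero]

theorem detZ_bot : DetZ (⊥ : Subgroup G) := detZ_of_det ⊥ det_bot

theorem detZ_of_series (N : Subgroup G) [N.Normal] (h : ZSeries N) : DetZ N := by
  obtain ⟨k, S, hS, h0, hk, hfac⟩ := h
  have key : ∀ i ≤ k, DetZ (S i) := by
    intro i
    induction i with
    | zero =>
      intro _
      have h1 : ∀ (A : Subgroup G) (hA : A.Normal), A = ⊥ → DetZ A := by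
        rintro A hA rfl
        exact detZ_bot
      exact h1 _ _ h0
    | succ i ih =>
      intro hi
      obtain ⟨hle, hf⟩ := hfac i (by omega)
      refine detZ_ext (S i) (S (i + 1)) hle (ih (by omega)) ?_
      rcases hf with hf | hf
      · exact detZ_of_noQ _ hf
      · exact detZ_of_det _ (det_of_locInd _ hf)
  subst hk
  exact key k le_rfl

/-- lifting -/
theorem noPerfect_of_detZ (N : Subgroup G) [N.Normal] (hN : DetZ N) (hQ : NoPerfect (G ⧸ N)) :
    NoPerfect G := by
  rw [noPerfect_iff] at hQ ⊢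
  intro n E hE haug
  apply hN n E hE
  apply hQ n
  · show E.map (fs ℤ (QuotientGroup.mk' N)) * E.map (fs ℤ (QuotientGroup.mk' N)) =
      E.map (fs ℤ (QuotientGroup.mk' N))
    rw [← Matrix.map_mul, hE]
  · intro i j
    have h1 : ∀ a : MonoidAlgebra ℤ G, aug (G ⧸ N) (fs ℤ (QuotientGroup.mk' N) a) = aug G a := by
      intro a
      induction a using MonoidAlgebra.induction_linear with
      | zero => simp
      | add a b ha hb => rw [map_add, map_add, map_add, ha, hb]
      | single g r => rw [fs_single, aug_single, aug_single]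
    show aug (G ⧸ N) (fs ℤ (QuotientGroup.mk' N) (E i j)) = 0
    rw [h1]
    exact haug i j

/-- the property is local -/
theorem noPerfect_local (h : ∀ H : Subgroup G, H.FG → NoPerfect H) : NoPerfect G := by
  classical
  rw [noPerfect_iff]
  intro n E hE haug
  let T : Finset G := Finset.univ.biUnion fun q : Fin n × Fin n => (E q.1 q.2).coeff.support
  let H : Subgroup G := Subgroup.closure (T : Set G)
  have hT : ∀ i j g, (E i j).coeff g ≠ 0 → g ∈ H := fun i j g hg =>
    Subgroup.subset_closure (Finset.mem_coe.2 (Finset.mem_biUnion.2 ⟨(i, j), Finset.mem_univ _,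
      Finsupp.mem_support_iff.2 hg⟩))
  choose E1 hE1 using fun i j => exists_restrict H (E i j) (hT i j)
  have hinj : Function.Injective (fs ℤ H.subtype) := by
    intro x y hxy
    exact mapDomain_injective H.subtype_injective hxy
  let E2 : Matrix (Fin n) (Fin n) (MonoidAlgebra ℤ H) := Matrix.of E1
  have hmap : E2.map (fs ℤ H.subtype) = E := by
    ext1 i j
    exact hE1 i j
  have hE2 : E2 * E2 = E2 := by
    have h2 : (E2 * E2).map (fs ℤ H.subtype) = E2.map (fs ℤ H.subtype) := by
      rw [Matrix.map_mul, hmap, hE]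
    ext1 i j
    exact hinj (congrFun (congrFun h2 i) j)
  have h1 : ∀ a : MonoidAlgebra ℤ H, aug G (fs ℤ H.subtype a) = aug H a := by
    intro a
    induction a using MonoidAlgebra.induction_linear with
    | zero => simp
    | add a b ha hb => rw [map_add, map_add, map_add, ha, hb]
    | single g r => rw [fs_single, aug_single, aug_single]
  have h3 := noPerfM_of (h H ⟨T, rfl⟩) n E2 hE2 (fun i j => by
    rw [← h1]
    have : fs ℤ H.subtype (E2 i j) = E i j := hE1 i j
    rw [this]
    exact haug i j)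
  rw [← hmap, h3]
  ext1 i j
  exact map_zero (fs ℤ H.subtype)

/-- the trivial group -/
theorem noPerfect_of_subsingleton [Subsingleton G] : NoPerfect G := by
  classical
  rw [noPerfect_iff]
  intro n E hE haug
  have key : ∀ x : MonoidAlgebra ℤ G, x = single 1 (x.coeff 1) := by
    intro x
    ext g
    rw [Subsingleton.elim g 1, coeff_single, Finsupp.single_eq_same]
  ext1 i j
  have h1 := haug i j
  rw [key (E i j), aug_single] at h1
  rw [key (E i j), h1, single_zero]
  rfl

theorem noPerfect_of_top (h : ZSeries (⊤ : Subgroup G)) : NoPerfect G := by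
  have : Subsingleton (G ⧸ (⊤ : Subgroup G)) := QuotientGroup.subsingleton_quotient_top
  exact noPerfect_of_detZ ⊤ (detZ_of_series ⊤ h) noPerfect_of_subsingleton

theorem noQ_of_chainFin (h : Pool.Agent.H26R2.IdemLI.ChainFin G) : NoQ G := by
  intro b hb
  exact h 1 one_pos b (fun i => by rw [mul_one]; exact hb i)

theorem noQ_of_resFinite (h : ResFinite G) : NoQ G := by
  intro b hb
  refine ⟨1, one_pos, ?_⟩
  rw [pow_one]
  by_contra hne
  obtain ⟨Q, _, _, f, hf⟩ := h (b 0) hne
  have h1 : ∀ k, b 0 = b k ^ Nat.factorial k := by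
    intro k
    induction k with
    | zero => simp
    | succ k ih => rw [Nat.factorial_succ, pow_mul, hb k]; exact ih
  apply hf
  rw [h1 (Nat.card Q), map_pow]
  obtain ⟨c, hc⟩ : Nat.card Q ∣ Nat.factorial (Nat.card Q) :=
    Nat.dvd_factorial Nat.card_pos le_rfl
  rw [hc, pow_mul, pow_card_eq_one', one_pow]

end

end Pool.Agent.H26R2.Perf
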